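import Pool.Agent.H839.PZ.One

/-!
# The `ℓ`-adic regulator of one variety and finitely many graph hypersurfaces

Let `X` be **one** smooth projective variety over a number field `k`, `S` the scheme `X` considered as a
scheme over `ℚ`, and `i, j` **one** pair of integers. The question Q1 for `X`, `i`, `j` and the prime `ℓ` is
whether the regulator
`r_ℓ : H_M^i(X, ℚ(j))_hom ⊗ ℚ_ℓ → H^1_st(G_k, H^{i-1}(X̄, ℚ_ℓ(j))) = H^1_st(G_ℚ, H^{i-1}(S̄, ℚ_ℓ(j)))` is an
isomorphism (`Iso`). Put `q = 2 j - i`.

For a smooth projective scheme `Y` over `ℚ` let `M^m(Y) = H_M^{2m-q}(Y, ℚ(m))_hom ⊗ ℚ_ℓ` and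
`D^m(Y) = H^1_st(G_ℚ, H^{2m-q-1}(Ȳ, ℚ_ℓ(m)))`, with the regulator `r : M^m(Y) → D^m(Y)`. The cycles `c` on
`S × Y` of the codimension `m - j + dim S` operate by `c_* : M^j(S) → M^m(Y)` and
`c_* : D^j(S) → D^m(Y)`. Let `A^m(Y) ⊆ D^m(Y)` be the image of `r`, and `B^m(Y) = B_1^m(Y) ⊕ B_2^m(Y)`,
where `B_1^m(Y) ⊆ D^m(Y)` is the sum of `A^m(Y)` and of the images `c_* D^j(S)`, and `B_2^m(Y) ⊆ M^m(Y)` the
sum of the images `c_* N` of the kernel `N` of the regulator for `S`, for all cycles `c` as above. They are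
additive functors of the Chow motive of `Y`, and the map `A^m(Y) → B^m(Y)` is bijective if and only if
`RegStable D m Y` holds. For a separated scheme `Z` of finite type over `ℚ` with the weight complex `W(Z)`
(Gillet, Soulé) put `A^{m,c}(Z) = H^c(A^m(W(Z)))`, `B^{m,c}(Z) = H^c(B^m(W(Z)))`; `BijAll C Z` says that the
maps `A^{m,c}(Z) → B^{m,c}(Z)` are isomorphisms for all `m` and `c`. (These data are the ones of the library,
`Q68.OV.Reg`, where the same is done with cubic hypersurfaces `T(x, y, z) = 1`.)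

For a finite graph `G` let `Y_G` be the complement of its graph hypersurface, that is the open subscheme
of the affine space over `ℚ` of the edge weights where the Kirchhoff polynomial (the weighted number of the
spanning trees, the determinant of the reduced Laplace matrix) is not zero.

**Theorem.** For each `S` and `j` there is a finite list `L` of finite simple graphs of maximal degree at
most three, which depends only on `S` and `j` (not on `ℓ` or `i`), such that the question has a positive
answer for `X`, `i`, `j`, `ℓ` if and only if the maps `A^{m,c}(Y_G) → B^{m,c}(Y_G)` are isomorphisms for all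
`m` and `c` and the finitely many graphs `G` in `L`. If it has, they are isomorphisms for all finite graphs
of maximal degree at most three.
-/

set_option autoImplicit false

open CategoryTheory CategoryTheory.Limits AlgebraicGeometry Pool.Agent.Y116.UV Pool.Agent.Z125.UN
  Pool.Agent.Q193.LT Pool.Agent.Q49.WU Pool.Agent.Q68.OV Pool.Agent.H839.PZ

universe w u

namespace Pool.Agent.Results.MP_76188c_nt.FinitelyManyGraphs

/-- A smooth projective variety over a number field, as a scheme `S` over `ℚ`, and the regulators: `M m Y`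
and `D m Y` are `H_M^{2m-q}(Y, ℚ(m))_hom ⊗ ℚ_ℓ` and `H^1_st(G_ℚ, H^{2m-q-1}(Ȳ, ℚ_ℓ(m)))`, `reg` is the
regulator, `Cyc m Y` the type of the cycles of codimension `m - j + dim S` on `S × Y`. -/
abbrev VarietyData (ℓ : ℕ) [Fact ℓ.Prime] (S : Sch ℚ) (j : ℤ) := RegData.{w, 0, u} ℚ ℚ_[ℓ] S j

/-- **The `ℓ`-adic regulator of one variety and finitely many graph hypersurfaces.** See the explanations
above; `zero` is the case of dimension zero, which is known. -/
theorem result {S : Sch ℚ} (hS : SmoothProj S) (j : ℤ) :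
    ∃ L : List Gph, ∀ (ℓ : ℕ) [Fact ℓ.Prime] (D : VarietyData.{w, u} ℓ S j)
        (C : PairData.{w} ℚ (ℤ × ℤ) ℚ_[ℓ]), IsReg D → IsWeightPair C → WeightGen C →
        (∀ Y, SmoothProj Y → ∀ m, (BijAt C Prod.fst m Y ↔ RegStable D m Y)) →
        (zero : ∀ Y : Sch ℚ, SmoothProj Y → topologicalKrullDim Y.left ≤ (0 : ℕ) → BijAll C Y) →
        (Iso D ↔ ∀ g ∈ L, BijAll C (g.co ℚ)) ∧
        (Iso D → ∀ g : Gph, BijAll C (g.co ℚ)) := by
  obtain ⟨N, G, h⟩ := reg_kirch.{w, 0, u} hS j
  refine ⟨G, fun ℓ _ D C hD hC hg bij zero => ?_⟩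
  obtain ⟨_, h2, h3⟩ := h ℚ_[ℓ] D C hD hC hg bij (point_of_zero hg zero)
  exact ⟨h2 frac_rat, fun hp => (h3 hp).2⟩

end Pool.Agent.Results.MP_76188c_nt.FinitelyManyGraphs
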