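import Mathlib
import Pool.Graph.R_seed8.R384.End
import Pool.Graph.R_seed8.R384.X.Mq7
import Pool.Graph.R_seed8.R384.Y.Two
import Pool.Graph.R_pool_sql_team_seeded_63374d34.N916.GB.Num
import Pool.Agent.H519.KW.Dn
import Pool.Agent.H519.KW.Gb
import Pool.Agent.H519.G2.Tow

/-!
# Semistable classes of the powers of most CM curves over `K = ℚ(√-7)`, in all degrees and all twists

`K = ℚ(√-7)` has the ring of integers `ℤ[ω]`, `ω² = ω - 2`; `(2) = (ω) (1 - ω)`. For `M ∈ ℤ[ω]`, `M ≠ 0`, let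
`E_M : y² + x y = x³ - ((3 M + 1) / 4) x² - 2 M² x - M³` be the quadratic twist by `M` of `X_0(49)`; these are the
elliptic curves over `K` with complex multiplication by `ℤ[ω]`. If `Gal(ℚ̄/K)` acts on the `2`-adic Tate module
of `E_M` by the characters `κ`, `κ'`, then `H^w(E_M^N, ℚ_2(j))` is the direct sum of the `ℚ_2(κ^a κ'^b)`,
`a = j - s`, `b = j - t`, `s + t = w`, each with the multiplicity `binomial(N, s) binomial(N, t)`.

The class consists of all the squarefree `D ≡ 1 mod 8` prime to `√-7`, with prime factors of all types.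
Let `S` be the set of the primary prime factors of `D`, and `M_S` the matrix over `𝔽_2` of their quadratic
residue symbols, with the row sums completed by the symbols modulo `√-7`. `D` is good if `M_S` is not
singular, and very good if also the matrix bordered by the symbols of the two primes `ω`, `1 - ω` above two is
not singular. We prove, over `K` and over all the multiquadratic fields `L = K(√d_1, …, √d_n)` and for all the
`E_M` for which the `M ∏_{i ∈ T} d_i` are good (very good) up to squares: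

1. If `(M; d_1, …, d_n)` is good, then for all `a`, `b` with `a + b` odd the classes of
`H¹(L, ℚ_2(κ^a κ'^b))` which are unramified outside `2` generate a space of dimension at most
`2 ^ n`, the number of the complex places of `L`; and if the even one of `a`, `b` is not positive then the
semistable classes are zero.
2. If `(M; d_1, …, d_n)` is very good then the semistable classes are zero for all `a`, `b` with `a + b` odd that
are not both positive. So for all `N`, all odd `w` and all `j` the dimension of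
`H¹_st(L, H^w(E_M^N, ℚ_2(j)))` is at most the dimension of the Deligne cohomology group
`H^{w+1}_D((E_M^N)_L, ℝ(j))`, that is `2 ^ n ∑ binomial(N, s) binomial(N, t)` over the `s + t = w`, `s, t < j`, the
rank of the motivic cohomology group predicted by Beilinson; and it is zero if `2 j ≤ w + 1`.
3. For all `M ≠ 0` and all `a`, `b` with `a + b` even that are not both positive the classes of
`H¹(K, ℚ_2(κ^a κ'^b))` which are unramified outside `2` and semistable at `2` are zero. So for all `N`, all even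
`w` and all `j` with `2 j ≤ w` the group `H¹_st(K, H^w(E_M^N, ℚ_2(j)))` is zero.
4. Exactly the proportion `c = ∏ (1 - 2^{-i}) = 0.288…` of the `D` of the class, ordered by the norm, is good, and
exactly `c / 2` is very good. For all `M`, `d_1, …, d_n` in the class, independent modulo squares, exactly the
proportion `c ^ (2 ^ n)` (`(c / 2) ^ (2 ^ n)`) of the `D` of the class prime to them is such that
`(M D; d_1, …, d_n)` is good (very good), and if `(M; d_1, …, d_n)` is good (very good) the same is true for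
`(M; d_1, …, d_n, D)`; so there are infinite towers of such fields `L`.

The weight of `ℚ_2(κ^a κ'^b)` is `-(a + b)`. If it is not `-2` then every class which is unramified at almost
all places is unramified outside `2`. At the places above `ω` the Hodge–Tate weight of the character is
`a`: if it is positive then all the classes are semistable, and if it is not positive then only the trivial
ones (for `a = b = 0` the unramified ones). The same is true for `1 - ω` and `b`.
-/

set_option autoImplicit false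

namespace Pool.Agent.Results.MP_76188c_nt.MostTwistsAllDegrees

open WeierstrassCurve Filter Topology IsDedekindDomain
open scoped Classical

/-! ### The class and its density -/

/-- The ring of integers `ℤ[ω]`, `ω² = ω - 2`, of `ℚ(√-7)`. -/
abbrev OK : Type := QuadraticAlgebra ℤ (-2) 1

/-- `ω` -/
def om : OK := ⟨0, 1⟩

/-- `√-7 = 2 ω - 1` -/
def s7 : OK := ⟨-1, 2⟩

/-- The norm of an element of `ℤ[ω]`. -/
def norm (z : OK) : ℤ := z.re ^ 2 + z.re * z.im + 2 * z.im ^ 2

/-- The class: `D` is squarefree, `D ≡ 1 mod 8` and prime to `√-7`. -/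
def Adm (D : OK) : Prop := Squarefree D ∧ (8 : OK) ∣ D - 1 ∧ ¬ s7 ∣ D

/-- The primary primes: the prime elements that are prime to `2 √-7` and `1` modulo `ω²`. Each prime ideal
that does not divide `2 √-7` is generated by exactly one of them. -/
def Primary (q : OK) : Prop := Prime q ∧ om ^ 2 ∣ q - 1 ∧ ¬ (1 - om) ∣ q ∧ ¬ s7 ∣ q

/-- The additive residue symbol: `0` if `x` is a square modulo `q`, otherwise `1`. -/
noncomputable def sym (q x : OK) : ZMod 2 := if ∃ y : OK, q ∣ x - y ^ 2 then 0 else 1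

/-- The row `π` of the matrix `M_S` of the symbols, applied to `v`. -/
noncomputable def row (S : Finset OK) (v : OK → ZMod 2) (π : OK) : ZMod 2 :=
  sym s7 π * v π + ∑ ρ ∈ S, sym ρ π * (v π + v ρ)

/-- The matrix `M_S` is not singular. -/
def Regular (S : Finset OK) : Prop :=
  ∀ v : OK → ZMod 2, (∀ π ∈ S, row S v π = 0) → ∀ π ∈ S, v π = 0

/-- The matrix `M_S`, bordered by the column of the symbols of `1 - ω` and the row of the symbols of `ω`,
is not singular. -/
def Bordered (S : Finset OK) : Prop :=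
  ∀ (v : OK → ZMod 2) (e : ZMod 2), (∀ π ∈ S, row S v π + e * sym π (1 - om) = 0) →
    ∑ ρ ∈ S, sym ρ om * v ρ = 0 → (∀ π ∈ S, v π = 0) ∧ e = 0

/-- The good `D`: `M_S` is not singular, `S` being the set of the primary prime factors of `D`. -/
def Good (D : OK) : Prop :=
  ∃ S : Finset OK, (∀ q ∈ S, Primary q) ∧ ∏ q ∈ S, q = D ∧ Regular S

/-- The very good `D`: also the bordered matrix is not singular. -/
def VeryGood (D : OK) : Prop :=
  ∃ S : Finset OK, (∀ q ∈ S, Primary q) ∧ ∏ q ∈ S, q = D ∧ Regular S ∧ Bordered S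

/-- No product of some of the `d_i` is a square: `K(√d_1, …, √d_n)` has degree `2 ^ n` over `K`. -/
def Ind {n : ℕ} (d : Fin n → OK) : Prop :=
  ∀ T : Finset (Fin n), T.Nonempty → ¬ IsSquare (∏ i ∈ T, d i)

/-- The pair of `M` and `d_1, …, d_n` has the property `P`: the `d_i` are independent modulo squares, and
all the `M ∏_{i ∈ T} d_i` are, up to nonzero squares, elements `D` of the class with `P D`. -/
def Pair (P : OK → Prop) (M : OK) {n : ℕ} (d : Fin n → OK) : Prop := Ind d ∧
  ∀ T : Finset (Fin n), ∃ D z : OK, z ≠ 0 ∧ Adm D ∧ P D ∧ M * ∏ i ∈ T, d i = D * z ^ 2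

/-- `M`, `d_1, …, d_n` are in the class, and `d_1, …, d_n` are independent modulo squares. -/
def InClass (M : OK) {n : ℕ} (d : Fin n → OK) : Prop := Adm M ∧ (∀ i, Adm (d i)) ∧ Ind d

/-- The elements `d_1, …, d_n, D`. -/
def add {n : ℕ} (d : Fin n → OK) (D : OK) : Fin (n + 1) → OK := Fin.snoc d D

/-- The number of the `D` of the class of norm at most `X`, prime to `m`, with the property `P`. -/
noncomputable def count (m : OK) (P : OK → Prop) (X : ℕ) : ℕ :=
  Nat.card {D : OK // Adm D ∧ norm D ≤ X ∧ IsCoprime D m ∧ P D}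

/-- The natural density of `P` in the set of the `D` of the class that are prime to `m` is `y`. -/
def Density (m : OK) (P : OK → Prop) (y : ℝ) : Prop :=
  Tendsto (fun X : ℕ => (count m P X : ℝ) / (count m (fun _ => True) X : ℝ)) atTop (𝓝 y)

/-! ### The curves -/

/-- An algebraic closure of `ℚ`. -/
abbrev QBar : Type := AlgebraicClosure ℚ

/-- The field `K = ℚ(w)`. It is `ℚ(√-7)` if `w² = w - 2`. -/
noncomputable abbrev K (w : QBar) : IntermediateField ℚ QBar := IntermediateField.adjoin ℚ {w}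

/-- `w` as an element of `K`. -/
noncomputable def gen (w : QBar) : K w := ⟨w, IntermediateField.mem_adjoin_simple_self ℚ w⟩

/-- The element `a + b ω` of `ℤ[ω]` as an element of the field `L`, `w` being the image of `ω`. -/
def emb {L : Type} [Ring L] (w : L) (z : OK) : L := z.re + z.im * w

/-- The curve `y² = x³ + 3 (1 - w) d x² + w⁴ d² x`. -/
def curve {F : Type} [Field F] (w d : F) : WeierstrassCurve F :=
  ⟨0, 3 * (1 - w) * d, 0, w ^ 4 * d ^ 2, 0⟩

/-- The curve `E_D : y² = x³ + 3 (1 - ω) D x² + ω⁴ D² x` over `K`. -/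
noncomputable def ED (w : QBar) (D : OK) : WeierstrassCurve (K w) := curve (gen w) (emb (gen w) D)

/-- The absolute Galois group of `K`. -/
abbrev Gal (w : QBar) : Type := QBar ≃ₐ[K w] QBar

/-- The subgroups of the Galois group. -/
abbrev Sub (w : QBar) : Type := Subgroup (Gal w)

/-- The characters of the Galois group with values in the units of `ℤ_2`. -/
abbrev Chr (w : QBar) : Type := Gal w →* ℤ_[2]ˣ

/-- The values of the character `χ`, in `ℤ_2`. -/
noncomputable def zv {w : QBar} (χ : Chr w) (σ : Gal w) : ℤ_[2] := ((χ σ : ℤ_[2]ˣ) : ℤ_[2])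

/-- The values of the character `χ`, in `ℚ_2`. -/
noncomputable def qv {w : QBar} (χ : Chr w) (σ : Gal w) : ℚ_[2] := ((zv χ σ : ℤ_[2]) : ℚ_[2])

/-- The group `E_D(ℚ̄)`. -/
abbrev Pts (w : QBar) (D : OK) : Type := ((ED w D).toAffine.baseChange QBar).Point

/-- The action of the Galois group on `E_D(ℚ̄)`. -/
noncomputable def act {w : QBar} {D : OK} (σ : Gal w) : Pts w D →+ Pts w D :=
  Affine.Point.map (W' := (ED w D).toAffine) (S := K w) (F := QBar) (K := QBar) σ.toAlgHom

/-- The sequences `x` and `y` are elements of the `2`-adic Tate module of the abelian group `A`, and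
they are a basis of it. -/
structure IsBasis {A : Type} [AddCommGroup A] (x y : ℕ → A) : Prop where
  zero : x 0 = 0 ∧ y 0 = 0
  double : ∀ n, x (n + 1) + x (n + 1) = x n ∧ y (n + 1) + y (n + 1) = y n
  span : ∀ (n : ℕ) (P : A), (2 ^ n : ℤ) • P = 0 → ∃ a b : ℤ, P = a • x n + b • y n
  indep : ∀ (n : ℕ) (a b : ℤ), a • x n + b • y n = 0 → (2 ^ n : ℤ) ∣ a ∧ (2 ^ n : ℤ) ∣ b

/-- The endomorphism `f` of the abelian group `A` acts on the element `x` of its `2`-adic Tate module
as the multiplication by the `2`-adic integer `z`. -/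
def ActsBy {A : Type} [AddCommGroup A] (f : A →+ A) (x : ℕ → A) (z : ℤ_[2]) : Prop :=
  ∀ (n : ℕ) (k : ℤ), (2 : ℤ_[2]) ^ n ∣ z - k → f (x n) = k • x n

/-! ### The semistable classes -/

/-- The decomposition group of the place of `K` given by the embedding `ι` of `ℚ̄`. -/
def Dec {w : QBar} {p : ℕ} [Fact p.Prime] (ι : QBar →ₐ[ℚ] PadicAlgCl p) : Set (Gal w) :=
  {σ | ∃ τ : PadicAlgCl p ≃ₐ[ℚ_[p]] PadicAlgCl p, ∀ x, τ (ι x) = ι (σ x)}

/-- Its inertia group: the automorphisms which are trivial on the residue field. -/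
def Inr {w : QBar} {p : ℕ} [Fact p.Prime] (ι : QBar →ₐ[ℚ] PadicAlgCl p) : Set (Gal w) :=
  {σ | ∃ τ : PadicAlgCl p ≃ₐ[ℚ_[p]] PadicAlgCl p, (∀ x, τ (ι x) = ι (σ x)) ∧
    ∀ z : PadicAlgCl p, ‖z‖ ≤ 1 → ‖τ z - z‖ < 1}

/-- The restriction of the function `c` to `H` is a continuous cocycle with values in `ℚ_2(χ)`. -/
structure IsCocycle {w : QBar} (H : Sub w) (χ : Chr w) (c : Gal w → ℚ_[2]) : Prop where
  cont : ContinuousOn c H
  mul : ∀ σ ∈ H, ∀ τ ∈ H, c (σ * τ) = c σ + qv χ σ * c τ

/-- The restriction of `c` to the intersection of `S` and `H` is a coboundary. -/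
def TrivialOn {w : QBar} (H : Sub w) (χ : Chr w) (S : Set (Gal w)) (c : Gal w → ℚ_[2]) : Prop :=
  ∃ y : ℚ_[2], ∀ σ ∈ S, σ ∈ H → c σ = (qv χ σ - 1) * y

/-- The class of `c` over the field fixed by `H` is unramified outside `2`. -/
def Unramified {w : QBar} (H : Sub w) (χ : Chr w) (c : Gal w → ℚ_[2]) : Prop :=
  ∀ (p : ℕ) [Fact p.Prime] (ι : QBar →ₐ[ℚ] PadicAlgCl p), p ≠ 2 → TrivialOn H χ (Inr ι) c

/-- The character `κ ^ a κ' ^ b`. -/
noncomputable def chi {w : QBar} (κ κ' : Chr w) (a b : ℤ) : Chr w := κ ^ a * κ' ^ b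

/-- The semistable classes of a character `κ ^ a κ' ^ b` at the places above the place `ι` of `K` above `2`
where its Hodge–Tate weight `h` (that is `a` at `ω` and `b` at `1 - ω`) is not positive are the trivial
ones, or the unramified ones if the character is trivial. If the weight is positive then all the classes
are semistable. -/
def Semistable {w : QBar} (H : Sub w) (κ κ' : Chr w) (a b h : ℤ) (ι : QBar →ₐ[ℚ] PadicAlgCl 2)
    (c : Gal w → ℚ_[2]) : Prop :=
  h ≤ 0 → TrivialOn H (chi κ κ' a b) (if a = 0 ∧ b = 0 then Inr ι else Dec ι) c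

/-- The class of `c` in `H¹(L, ℚ_2(κ ^ a κ' ^ b))`, `L` being the field fixed by `H`, is unramified outside `2`
and semistable at the places above `2`. -/
structure IsSelmer {w : QBar} (H : Sub w) (κ κ' : Chr w) (a b : ℤ) (c : Gal w → ℚ_[2]) : Prop where
  odd : Unramified H (chi κ κ' a b) c
  one : ∀ ι : QBar →ₐ[ℚ] PadicAlgCl 2, ‖ι w‖ < 1 → Semistable H κ κ' a b a ι c
  two : ∀ ι : QBar →ₐ[ℚ] PadicAlgCl 2, ‖ι (1 - w)‖ < 1 → Semistable H κ κ' a b b ι c

/-- All these classes are zero. -/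
def SelmerZero {w : QBar} (H : Sub w) (κ κ' : Chr w) (a b : ℤ) : Prop :=
  ∀ c : Gal w → ℚ_[2], IsCocycle H (chi κ κ' a b) c → IsSelmer H κ κ' a b c →
    TrivialOn H (chi κ κ' a b) Set.univ c

/-- The classes of `H¹(L, ℚ_2(κ ^ a κ' ^ b))` that are unramified outside `2` generate a space of dimension at
most `f`: every `f + 1` of them satisfy a nontrivial linear relation. -/
def DimLE {w : QBar} (H : Sub w) (κ κ' : Chr w) (a b : ℤ) (f : ℕ) : Prop :=
  ∀ c : Fin (f + 1) → Gal w → ℚ_[2],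
    (∀ j, IsCocycle H (chi κ κ' a b) (c j) ∧ Unramified H (chi κ κ' a b) (c j)) →
    ∃ l : Fin (f + 1) → ℚ_[2], l ≠ 0 ∧
      TrivialOn H (chi κ κ' a b) Set.univ (fun σ => ∑ j, l j * c j σ)

/-- `κ` has order at most two on the inertia groups of the places that do not divide `v`. -/
def FiniteOff {w : QBar} (v : QBar) (κ : Chr w) : Prop :=
  ∀ (p : ℕ) [Fact p.Prime] (ι : QBar →ₐ[ℚ] PadicAlgCl p), ‖ι v‖ = 1 → ∀ σ ∈ Inr ι, zv κ σ ^ 2 = 1

/-- The character `κ` is continuous and the Galois group acts by it on the element `x` of the Tate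
module. -/
def Eigen {w : QBar} {D : OK} (κ : Chr w) (x : ℕ → Pts w D) : Prop :=
  Continuous (zv κ) ∧ ∀ σ : Gal w, ActsBy (act σ) x (zv κ σ)

/-- The Galois group acts on the `2`-adic Tate module of `E_D` through the sum of the continuous
characters `κ`, `κ'`; the first one has order at most two on the inertia groups of the places that
do not divide `ω`, and the second one on those of the places that do not divide `1 - ω`. So `κ` has
the Hodge–Tate weights `1` at `ω` and `0` at `1 - ω`, and `κ'` has the weights `0` at `ω` and `1` at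
`1 - ω`. -/
def TateModule {w : QBar} (D : OK) (κ κ' : Chr w) : Prop :=
  (∃ x y : ℕ → Pts w D, IsBasis x y ∧ Eigen κ x ∧ Eigen κ' y) ∧
    FiniteOff w κ ∧ FiniteOff (1 - w) κ'

/-! ### The twists of `X_0(49)` -/

/-- The element `-√-7 D` of `ℤ[ω]`. -/
def tw (D : OK) : OK := -(s7 * D)

/-- The curve `y² + x y = x³ - ((3 d + 1) / 4) x² - 2 d² x - d³`, the quadratic twist by `d` of
`X_0(49) : y² + x y = x³ - x² - 2 x - 1`. -/
def twist {F : Type} [Field F] (d : F) : WeierstrassCurve F :=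
  ⟨1, -((3 * d + 1) / 4), 0, -2 * d ^ 2, -d ^ 3⟩

/-- The curve `E_M` over `K`, the quadratic twist by `M` of `X_0(49)`. -/
noncomputable def EK (w : QBar) (M : OK) : WeierstrassCurve (K w) := twist (emb (gen w) M)

/-- The curves are isomorphic: they differ by a change of variables. -/
def Iso {F : Type} [Field F] (W W' : WeierstrassCurve F) : Prop :=
  ∃ C : VariableChange F, C • W = W'

/-- The Galois group of `ℚ̄` over the field `L = K(s_1, …, s_n)`. -/
noncomputable def GalL (w : QBar) {n : ℕ} (s : Fin n → QBar) : Sub w :=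
  (IntermediateField.adjoin (K w) (Set.range s)).fixingSubgroup

/-! ### The statement -/

/-- The curve `E_M` is isomorphic to the elliptic curve `ED w (tw M)`, the Galois group acts on its
`2`-adic Tate module by `κ`, `κ'`, and these characters have the property `P`. -/
def Has (M : OK) (P : ∀ w : QBar, Chr w → Chr w → Prop) : Prop :=
  ∀ w : QBar, w ^ 2 = w - 2 → Iso (EK w M) (ED w (tw M)) ∧ (ED w (tw M)).IsElliptic ∧
    ∃ κ κ' : Chr w, TateModule (tw M) κ κ' ∧ P w κ κ'

/-- For all `a`, `b` with `a + b` odd, the classes of `H¹(L, ℚ_2(κ ^ a κ' ^ b))`, `L = K(√d_1, …, √d_n)`, that are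
unramified outside `2` generate a space of dimension at most `2 ^ n`, and if `C a b` then the semistable
ones are zero. -/
def OddDegrees (C : ℤ → ℤ → Prop) (M : OK) {n : ℕ} (d : Fin n → OK) : Prop :=
  Has M fun w κ κ' => ∀ s : Fin n → QBar, (∀ i, s i ^ 2 = emb w (d i)) →
    ∀ a b : ℤ, Odd (a + b) → DimLE (GalL w s) κ κ' a b (2 ^ n) ∧
      (C a b → SelmerZero (GalL w s) κ κ' a b)

/-- For all `a`, `b` with `a + b` even that are not both positive, the classes of
`H¹(K, ℚ_2(κ ^ a κ' ^ b))` that are unramified outside `2` and semistable at `2` are zero. -/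
def EvenDegrees (M : OK) : Prop :=
  Has M fun _ κ κ' => ∀ a b : ℤ, Even (a + b) → a ≤ 0 ∨ b ≤ 0 → SelmerZero ⊤ κ κ' a b

/-- The proportion `(1 - 1/2) (1 - 1/4) (1 - 1/8) ⋯`. -/
noncomputable def c : ℝ := ∏' i : ℕ, (1 - (1 / 2 : ℝ) ^ (i + 1))

/-- In the set of the `D` of the class that are prime to `M d_1 ⋯ d_n`, the natural density of the `D` such that
the pair `(M D; d_1, …, d_n)` has the property `P` is `y`, and if `(M; d_1, …, d_n)` has the property `P` then the
natural density of the `D` such that `(M; d_1, …, d_n, D)` has the property `P` is also `y`. -/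
def Law (P : OK → Prop) (M : OK) {n : ℕ} (d : Fin n → OK) (y : ℝ) : Prop :=
  Density (M * ∏ i, d i) (fun D => Pair P (M * D) d) y ∧
    (Pair P M d → Density (M * ∏ i, d i) (fun D => Pair P M (add d D)) y)

/-! ### The proof -/

section proof

open Pool.Agent.Y676.IS (Cu some_congr)
open Pool.Agent.R384 (WD ca cb em)

variable {w : QBar} (hw : w ^ 2 = w - 2) {D : OK}

lemma gen_sq : gen w ^ 2 = gen w - 2 ↔ w ^ 2 = w - 2 := by
  rw [Subtype.ext_iff]
  rfl

lemma emb_eq (z : OK) : ((emb (gen w) z : K w) : QBar) = em hw z := by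
  unfold emb
  rw [Pool.Agent.R384.em_apply]
  push_cast
  rfl

lemma curve_eq : (ED w D).toAffine.baseChange QBar = Cu (ca w (em hw D)) (cb w (em hw D)) := by
  have h1 : algebraMap (K w) QBar (gen w) = w := rfl
  have h2 : algebraMap (K w) QBar (emb (gen w) D) = em hw D := emb_eq hw D
  unfold ED curve Cu ca cb WeierstrassCurve.Affine.baseChange WeierstrassCurve.toAffine
  ext
  · exact map_zero _
  · show algebraMap (K w) QBar (3 * (1 - gen w) * emb (gen w) D) = _
    rw [map_mul, map_mul, map_sub, map_one, map_ofNat, h1, h2]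
  · exact map_zero _
  · show algebraMap (K w) QBar (gen w ^ 4 * emb (gen w) D ^ 2) = _
    rw [map_mul, map_pow, map_pow, h1, h2]
  · exact map_zero _

/-- the points of equal curves -/
noncomputable def tr {W W' : Affine QBar} (h : W = W') : W.Point ≃+ W'.Point := by
  subst h
  exact AddEquiv.refl _

lemma tr_some {W W' : Affine QBar} (h : W = W') {a b : QBar} (hab : W.Nonsingular a b) :
    tr h (.some a b hab) = .some a b (h ▸ hab) := by
  subst h
  rfl

lemma tr_act (h : WD w (em hw D)) (fx : ∀ σ : Gal w, Pool.Agent.R384.Fx w (em hw D)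
    (Pool.Agent.R384.rh σ)) (σ : Gal w) (P : Pts w D) :
    tr (curve_eq hw) (act σ P) = Pool.Agent.R384.act h fx σ (tr (curve_eq hw) P) := by
  rcases P with _ | ⟨a, b, hab⟩
  · show tr (curve_eq hw) (act σ 0) = Pool.Agent.R384.act h fx σ (tr (curve_eq hw) 0)
    simp only [map_zero]
  · rw [tr_some (curve_eq hw) hab]
    exact tr_some (curve_eq hw) (a := σ.toAlgHom a) (b := σ.toAlgHom b)
      ((Affine.baseChange_nonsingular (ED w D).toAffine σ.toAlgHom.injective ..).mpr hab)

lemma elliptic (hD : D ≠ 0) (hw : w ^ 2 = w - 2) : (ED w D).IsElliptic := by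
  have hg := gen_sq.2 hw
  have hg0 : gen w ≠ 0 := by
    intro h
    rw [h] at hg
    norm_num at hg
  have hg1 : 1 - gen w ≠ 0 := by
    intro h
    have h1 : gen w = 1 := (sub_eq_zero.1 h).symm
    rw [h1] at hg
    norm_num at hg
  have hd : (emb (gen w) D : K w) ≠ 0 := by
    intro h
    have h1 := emb_eq hw D
    rw [h] at h1
    exact hD (Pool.Agent.R384.em_inj hw h1.symm)
  rw [WeierstrassCurve.isElliptic_iff, isUnit_iff_ne_zero]
  have e : (ED w D).Δ = 16 * (gen w ^ 4 * emb (gen w) D ^ 2) ^ 2 *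
      ((1 - gen w) ^ 8 * emb (gen w) D ^ 2) := by
    simp only [ED, curve, WeierstrassCurve.Δ, WeierstrassCurve.b₂, WeierstrassCurve.b₄,
      WeierstrassCurve.b₆, WeierstrassCurve.b₈]
    generalize emb (gen w) D = d at *
    generalize gen w = g at *
    have h2 : (1 - g) ^ 2 = -1 - g := by linear_combination hg
    have h4 : (1 - g) ^ 4 = 3 * g - 1 := by
      have : (1 - g) ^ 4 = ((1 - g) ^ 2) ^ 2 := by ring
      rw [this, h2]
      linear_combination hg
    have h8 : (1 - g) ^ 8 = 3 * g - 17 := by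
      have : (1 - g) ^ 8 = ((1 - g) ^ 4) ^ 2 := by ring
      rw [this, h4]
      linear_combination 9 * hg
    have g4 : g ^ 4 = 2 - 3 * g := by linear_combination (g ^ 2 + g - 1) * hg
    rw [h8]
    have e1 : 9 * (1 - g) ^ 2 - 4 * g ^ 4 = 3 * g - 17 := by
      rw [h2, g4]; ring
    rw [← e1]
    ring
  rw [e]
  exact mul_ne_zero (mul_ne_zero (by norm_num) (pow_ne_zero _ (mul_ne_zero (pow_ne_zero _ hg0)
    (pow_ne_zero _ hd)))) (mul_ne_zero (pow_ne_zero _ hg1) (pow_ne_zero _ hd))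

/-! ### The isomorphism -/

lemma gen_iso {F : Type} [Field F] [CharZero F] {g d : F} (hg : g ^ 2 = g - 2) :
    (⟨Units.mk0 (1 / 2 : F) (by norm_num), -((g + 2) * d / 4), -(1 / 2), (g + 2) * d / 8⟩ :
      VariableChange F) • twist d =
      ⟨0, 3 * (1 - g) * (d - 2 * d * g), 0, g ^ 4 * (d - 2 * d * g) ^ 2, 0⟩ := by
  unfold twist
  have hu : (((Units.mk0 (1 / 2 : F) (by norm_num))⁻¹ : Fˣ) : F) = 2 := by
    simp
  ext
  · simp only [variableChange_a₁, hu]
    norm_num
  · simp only [variableChange_a₂, hu]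
    linear_combination (-6 * d) * hg
  · simp only [variableChange_a₃, hu]
    ring
  · simp only [variableChange_a₄, hu]
    linear_combination ((-4 * g ^ 4 + 7 * g ^ 2 + 7 * g - 4) * d ^ 2) * hg
  · simp only [variableChange_a₆, hu]
    linear_combination ((-g - 10) * d ^ 3) * hg

lemma emb_em (hw : w ^ 2 = w - 2) (z : OK) : emb (gen w) z = em (gen_sq.2 hw) z := by
  rw [Pool.Agent.R384.em_apply]
  rfl

lemma emb_em' (hw : w ^ 2 = w - 2) (z : OK) : emb w z = em hw z := by
  rw [Pool.Agent.R384.em_apply]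
  rfl

lemma tw_iso (hw : w ^ 2 = w - 2) (M : OK) : Iso (EK w M) (ED w (tw M)) := by
  have hg := gen_sq.2 hw
  have hs : (em hg s7 : K w) = 2 * gen w - 1 := by
    rw [Pool.Agent.R384.em_apply]
    unfold s7
    push_cast
    ring
  have hemb : (emb (gen w) (tw M) : K w) = emb (gen w) M - 2 * emb (gen w) M * gen w := by
    rw [emb_em hw, emb_em hw, tw, map_neg, map_mul, hs]
    ring
  have h1 := gen_iso (d := emb (gen w) M) hg
  have h2 : ED w (tw M) = ⟨0, 3 * (1 - gen w) * (emb (gen w) M - 2 * emb (gen w) M * gen w), 0,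
      gen w ^ 4 * (emb (gen w) M - 2 * emb (gen w) M * gen w) ^ 2, 0⟩ := by
    unfold ED curve
    rw [hemb]
  rw [h2]
  exact ⟨_, h1⟩

lemma galL_eq {n : ℕ} (s : Fin n → QBar) : GalL w s = Pool.Agent.R384.fixs s Finset.univ := by
  ext σ
  unfold GalL
  rw [IntermediateField.mem_fixingSubgroup_iff]
  constructor
  · intro h i _
    exact h (s i) (IntermediateField.subset_adjoin _ _ ⟨i, rfl⟩)
  · intro h x hx
    have h1 : IntermediateField.adjoin (K w) (Set.range s) ≤
        IntermediateField.fixedField (Pool.Agent.R384.fixs s Finset.univ) := by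
      rw [IntermediateField.adjoin_le_iff]
      rintro _ ⟨i, rfl⟩
      rw [SetLike.mem_coe, IntermediateField.mem_fixedField_iff]
      intro f hf
      exact hf i (Finset.mem_univ i)
    exact (IntermediateField.mem_fixedField_iff _ x).1 (h1 hx) σ h

/-- the transfer, classes over `L` -/
lemma van_of {v : Pool.Agent.R384.OO} {χ : Chr w} {H : Sub w}
    (h : Pool.Agent.R384.VanOn hw v χ H) {v' : QBar} (hv : Pool.Agent.R384.em hw v = v')
    {c : Gal w → ℚ_[2]} (hc : IsCocycle H χ c) (ho : Unramified H χ c)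
    (h2 : ∀ ι : QBar →ₐ[ℚ] PadicAlgCl 2, ‖ι v'‖ < 1 → TrivialOn H χ (Dec ι) c) :
    TrivialOn H χ Set.univ c := by
  obtain ⟨y, hy⟩ := h c ⟨hc.cont, hc.mul⟩ (fun p _ ι hp => ho p ι hp) (fun ι hι => by
    rw [hv] at hι
    exact h2 ι hι)
  exact ⟨y, fun σ _ h => hy σ h⟩

lemma tw_ne {M : OK} (hM : M ≠ 0) : tw M ≠ 0 := by
  unfold tw
  rw [neg_ne_zero]
  refine mul_ne_zero ?_ hM
  intro h
  exact absurd (congrArg QuadraticAlgebra.im h) (by decide)

/-- the characters of the curve -/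
lemma has_of {M : OK} (hM : M ≠ 0) {P : ∀ w : QBar, Chr w → Chr w → Prop}
    (h : ∀ (w : QBar) (hw : w ^ 2 = w - 2) (κ κ' : Chr w) (r I : QBar),
      Pool.Agent.R384.KD hw κ κ' (tw M) r I → Pool.Agent.NH57.BK.K8 κ κ' → P w κ κ') : Has M P := by
  intro w hw
  have hD := tw_ne hM
  refine ⟨tw_iso hw M, elliptic hD hw, ?_⟩
  have hP := h w hw
  have h : Pool.Agent.R384.WD w (Pool.Agent.R384.em hw (tw M)) := ⟨hw, Pool.Agent.R384.em_ne hw hD⟩
  obtain ⟨r, hr⟩ : ∃ r : QBar, r ^ 2 = Pool.Agent.R384.em hw (tw M) :=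
    IsAlgClosed.exists_pow_nat_eq _ (by norm_num)
  obtain ⟨I, hI⟩ : ∃ I : QBar, I ^ 2 = -1 := IsAlgClosed.exists_pow_nat_eq _ (by norm_num)
  have fx : ∀ σ : Gal w, Pool.Agent.R384.Fx w (Pool.Agent.R384.em hw (tw M))
      (Pool.Agent.R384.rh σ) := fun σ =>
    ⟨Pool.Agent.Y715.Gi.gk_fix σ, Pool.Agent.R384.gk_em hw σ (tw M)⟩
  obtain ⟨κ, κ', x, y, kd, k8, hx, hy, ax, ay⟩ := Pool.Agent.NH57.BK.t_K8 hw hD h hr hI fx
  have td := Pool.Agent.R384.td h
  set T := tr (curve_eq hw (D := tw M)) with hT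
  have hor : ∀ {p : ℕ} [Fact p.Prime] (ι : QBar →ₐ[ℚ] PadicAlgCl p) (s : QBar) (z : OK),
      s ^ 2 = Pool.Agent.R384.em hw z → ∀ σ : Gal w, σ s = s ∨ σ s = -s := fun ι s z hs σ =>
    Pool.Agent.R384.rt_or hw hs σ
  have hIr : (I * r) ^ 2 = Pool.Agent.R384.em hw (-tw M) := by rw [mul_pow, hI, hr, map_neg]; ring
  refine ⟨κ, κ', ⟨⟨fun n => T.symm (y n), fun n => T.symm (x n), ⟨?_, ?_, ?_, ?_⟩,
    ⟨Units.continuous_val.comp kd.cont, fun σ => ?_⟩,
    ⟨Units.continuous_val.comp kd.cont', fun σ => ?_⟩⟩, ?_, ?_⟩, ?_⟩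
  · show T.symm (y 0) = 0 ∧ T.symm (x 0) = 0
    rw [hx.zero, hy.zero, map_zero]
    exact ⟨rfl, rfl⟩
  · intro n
    show T.symm (y (n + 1)) + T.symm (y (n + 1)) = T.symm (y n) ∧
      T.symm (x (n + 1)) + T.symm (x (n + 1)) = T.symm (x n)
    rw [← map_add, ← map_add, hx.dbl, hy.dbl]
    exact ⟨rfl, rfl⟩
  · intro n P hP
    have h1 : (2 ^ n : ℤ) • T P = 0 := by rw [← map_zsmul, hP, map_zero]
    obtain ⟨a, b, hab⟩ := Pool.Agent.R384.Tow.basis td hx hy h1
    refine ⟨b, a, ?_⟩
    apply T.injective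
    show T P = T (b • T.symm (y n) + a • T.symm (x n))
    rw [map_add, map_zsmul, map_zsmul, T.apply_symm_apply, T.apply_symm_apply, hab, add_comm]
  · intro n a b hab
    have h1 : T (a • T.symm (y n) + b • T.symm (x n)) = 0 := by
      show T ((fun n => a • T.symm (y n) + b • T.symm (x n)) n) = 0
      rw [show (fun n => a • T.symm (y n) + b • T.symm (x n)) n = 0 from hab, map_zero]
    rw [map_add, map_zsmul, map_zsmul, T.apply_symm_apply, T.apply_symm_apply, add_comm] at h1
    exact (Pool.Agent.R384.Tow.uniq td hx hy h1).symm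
  · intro n k hk
    show act σ (T.symm (y n)) = k • T.symm (y n)
    apply T.injective
    rw [hT, tr_act hw h fx σ, ← hT, T.apply_symm_apply, map_zsmul, T.apply_symm_apply]
    exact ay σ n k hk
  · intro n k hk
    show act σ (T.symm (x n)) = k • T.symm (x n)
    apply T.injective
    rw [hT, tr_act hw h fx σ, ← hT, T.apply_symm_apply, map_zsmul, T.apply_symm_apply]
    exact ax σ n k hk
  · rintro p _ ι hn σ ⟨τ, hτ, hin⟩
    have h1 := kd.inert p ι τ σ hτ hin hn
    unfold zv
    rcases hor ι _ _ hIr σ with h2 | h2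
    · rw [h1.1 h2, Units.val_one, one_pow]
    · rw [h1.2 h2, Units.val_neg, Units.val_one, neg_one_sq]
  · rintro p _ ι hn σ ⟨τ, hτ, hin⟩
    have h1 := kd.inert' p ι τ σ hτ hin hn
    unfold zv
    rcases hor ι _ _ hr σ with h2 | h2
    · rw [h1.1 h2, Units.val_one, one_pow]
    · rw [h1.2 h2, Units.val_neg, Units.val_one, neg_one_sq]
  · exact hP κ κ' r I kd k8

/-- what is needed of a good element -/
def Gk (v : Prop) (D : OK) : Prop := ∃ S : Finset OK, ∏ q ∈ S, q = D ∧
  Pool.Agent.NH57.BK.GoodS S ∧ (v → Pool.Agent.NH57.BH.GoodX 0 0 S)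

lemma gk_of {D : OK} (hA : Adm D) (h : Good D) : Gk False D := by
  obtain ⟨S, hS, hD, hR⟩ := h
  exact ⟨S, hD, Pool.Agent.H519.KW.Gb.goodS_of hS (by rw [hD]; exact hA.2.1) hR, False.elim⟩

lemma gk_of' {D : OK} (hA : Adm D) (h : VeryGood D) : Gk True D := by
  obtain ⟨S, hS, hD, hR, hB⟩ := h
  have h8 : (8 : OK) ∣ ∏ q ∈ S, q - 1 := by rw [hD]; exact hA.2.1
  exact ⟨S, hD, Pool.Agent.H519.KW.Gb.goodS_of hS h8 hR,
    fun _ => Pool.Agent.H519.KW.Gb.goodX_of hS h8 hR hB⟩

/-- the theorem for odd degrees -/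
lemma odd_of {C : ℤ → ℤ → Prop} {v : Prop} (hC : ∀ a b, C a b →
      (Even a ∧ a ≤ 0) ∨ (Even b ∧ b ≤ 0) ∨ (v ∧ (a ≤ 0 ∨ b ≤ 0)))
    {M : OK} {n : ℕ} {d : Fin n → OK}
    (hG : ∀ T : Finset (Fin n), ∃ D z : OK, z ≠ 0 ∧ Adm D ∧ Gk v D ∧
      M * ∏ i ∈ T, d i = D * z ^ 2) : OddDegrees C M d := by
  have hne : ∀ T : Finset (Fin n), M * ∏ i ∈ T, d i ≠ 0 := by
    intro T
    obtain ⟨D, z, hz, hD, -, he⟩ := hG T
    rw [he]
    exact mul_ne_zero hD.1.ne_zero (pow_ne_zero 2 hz)
  have hM0 : M ≠ 0 := left_ne_zero_of_mul (hne ∅)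
  have hd0 : ∀ i, d i ≠ 0 := by
    intro i
    have h1 := hne {i}
    rw [Finset.prod_singleton] at h1
    exact right_ne_zero_of_mul h1
  refine has_of hM0 fun w hw κ κ' r I kd k8 s hs a b hab => ?_
  have hE : ∀ i, s i ^ 2 = Pool.Agent.R384.em hw (d i) := fun i => by rw [hs i, emb_em' hw]
  have hom : Pool.Agent.R384.em hw Pool.Agent.R384.om = w := by
    rw [Pool.Agent.R384.em_apply]
    simp [Pool.Agent.R384.om]
  have hom' : Pool.Agent.R384.em hw (1 - Pool.Agent.R384.om) = 1 - w := by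
    rw [map_sub, map_one, hom]
  have hG' : ∀ T : Finset (Fin n), ∃ (S : Finset Pool.Agent.R384.OO) (z : Pool.Agent.R384.OO),
      Pool.Agent.NH57.BK.GoodS S ∧ (v → Pool.Agent.NH57.BH.GoodX 0 0 S) ∧ z ≠ 0 ∧
      tw M * ∏ i ∈ T, d i = -(Pool.Agent.R384.s7 * ∏ q ∈ S, q) * z ^ 2 := by
    intro T
    obtain ⟨D, z, hz, hA, ⟨S, hSD, hS, hX⟩, he⟩ := hG T
    refine ⟨S, z, hS, hX, hz, ?_⟩
    rw [hSD]
    unfold tw
    have : s7 = Pool.Agent.R384.s7 := rfl
    rw [this]
    linear_combination (-Pool.Agent.R384.s7) * he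
  have hS : ∀ T : Finset (Fin n), ∃ (S : Finset Pool.Agent.R384.OO) (z : Pool.Agent.R384.OO),
      Pool.Agent.NH57.BK.GoodS S ∧ z ≠ 0 ∧
      tw M * ∏ i ∈ T, d i = -(Pool.Agent.R384.s7 * ∏ q ∈ S, q) * z ^ 2 := by
    intro T
    obtain ⟨S, z, h1, h2, h3, h4⟩ := hG' T
    exact ⟨S, z, h1, h3, h4⟩
  have hX : v → ∀ T : Finset (Fin n), ∃ (x y : ZMod 2) (S : Finset Pool.Agent.R384.OO)
      (z : Pool.Agent.R384.OO), Pool.Agent.NH57.BH.GoodX x y S ∧ z ≠ 0 ∧
      tw M * ∏ i ∈ T, d i = -(Pool.Agent.R384.s7 * ∏ q ∈ S, q) * z ^ 2 := by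
    intro hv T
    obtain ⟨S, z, h1, h2, h3, h4⟩ := hG' T
    exact ⟨0, 0, S, z, h2 hv, h3, h4⟩
  have hD := tw_ne hM0
  have h0 : ¬ (a = 0 ∧ b = 0) := by
    rintro ⟨rfl, rfl⟩
    exact absurd hab (by decide)
  rw [galL_eq]
  refine ⟨?_, fun hCab c hc hsel => ?_⟩
  · intro c hc
    obtain ⟨l, hl, y, hy⟩ := Pool.Agent.H519.G2.dimq_ab hw hE kd k8 hD hd0 hS hab c (fun j =>
      ⟨⟨(hc j).1.cont, (hc j).1.mul⟩, fun p _ ι hp => (hc j).2 p ι hp⟩)
    refine ⟨l, hl, y, fun σ _ h => ?_⟩
    have h1 := hy σ h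
    rw [Finset.sum_apply] at h1
    exact h1
  · have s1 : a ≤ 0 → ∀ ι : QBar →ₐ[ℚ] PadicAlgCl 2, ‖ι w‖ < 1 →
        TrivialOn (Pool.Agent.R384.fixs s Finset.univ) (κ ^ a * κ' ^ b) (Dec ι) c := by
      intro ha ι hι
      have := hsel.one ι hι ha
      rwa [if_neg h0] at this
    have s2 : b ≤ 0 → ∀ ι : QBar →ₐ[ℚ] PadicAlgCl 2, ‖ι (1 - w)‖ < 1 →
        TrivialOn (Pool.Agent.R384.fixs s Finset.univ) (κ ^ a * κ' ^ b) (Dec ι) c := by
      intro hb ι hι
      have := hsel.two ι hι hb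
      rwa [if_neg h0] at this
    have par : (Even a ∧ Odd b) ∨ (Odd a ∧ Even b) := by
      rcases Int.even_or_odd a with ha | ha
      · left
        refine ⟨ha, ?_⟩
        obtain ⟨k, hk⟩ := ha
        obtain ⟨l, hl⟩ := hab
        exact ⟨l - k, by omega⟩
      · right
        refine ⟨ha, ?_⟩
        obtain ⟨k, hk⟩ := ha
        obtain ⟨l, hl⟩ := hab
        exact ⟨l - k, by omega⟩
    have goal : (v ∧ (a ≤ 0 ∨ b ≤ 0)) ∨ (Even a ∧ a ≤ 0) ∨ (Even b ∧ b ≤ 0) := by
      rcases hC a b hCab with h | h | h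
      · exact Or.inr (Or.inl h)
      · exact Or.inr (Or.inr h)
      · exact Or.inl h
    rcases par with ⟨ha, hb⟩ | ⟨ha, hb⟩
    · have hnb : ¬ Even b := Int.not_even_iff_odd.2 hb
      by_cases ha0 : a ≤ 0
      · exact van_of hw (Pool.Agent.H519.G2.mq_ab hw hE kd k8 hD hd0 hS
          (Or.inl ⟨ha, hb, rfl⟩)) hom hc hsel.odd (s1 ha0)
      · rcases goal with ⟨hv, h1⟩ | ⟨-, h1⟩ | ⟨h1, -⟩
        · exact van_of hw (Pool.Agent.H519.G2.mqg_ab hw hE kd k8 hD hd0 (hX hv)
            (Or.inl ⟨ha, hb, rfl⟩)) hom' hc hsel.odd (s2 (h1.resolve_left ha0))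
        · exact absurd h1 ha0
        · exact absurd h1 hnb
    · have hna : ¬ Even a := Int.not_even_iff_odd.2 ha
      by_cases hb0 : b ≤ 0
      · exact van_of hw (Pool.Agent.H519.G2.mq_ab hw hE kd k8 hD hd0 hS
          (Or.inr ⟨ha, hb, rfl⟩)) hom' hc hsel.odd (s2 hb0)
      · rcases goal with ⟨hv, h1⟩ | ⟨h1, -⟩ | ⟨-, h1⟩
        · exact van_of hw (Pool.Agent.H519.G2.mqg_ab hw hE kd k8 hD hd0 (hX hv)
            (Or.inr ⟨ha, hb, rfl⟩)) hom hc hsel.odd (s1 (h1.resolve_right hb0))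
        · exact absurd h1 hna
        · exact absurd h1 hb0

/-- the theorem for even degrees -/
lemma even_of {M : OK} (hM : M ≠ 0) : EvenDegrees M := by
  refine has_of hM fun w hw κ κ' r I kd k8 a b hab hle c hc hs => ?_
  have hom : Pool.Agent.R384.em hw Pool.Agent.R384.om = w := by
    rw [Pool.Agent.R384.em_apply]
    simp [Pool.Agent.R384.om]
  have hom' : Pool.Agent.R384.em hw (1 - Pool.Agent.R384.om) = 1 - w := by
    rw [map_sub, map_one, hom]
  have hcont : Continuous c := by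
    have := hc.cont
    rwa [Subgroup.coe_top, continuousOn_univ] at this
  by_cases h0 : a = 0 ∧ b = 0
  · obtain ⟨rfl, rfl⟩ := h0
    have e : chi κ κ' 0 0 = 1 := by
      apply MonoidHom.ext
      intro σ
      show (κ σ) ^ (0 : ℤ) * (κ' σ) ^ (0 : ℤ) = 1
      rw [zpow_zero, zpow_zero, mul_one]
    rw [e] at hc ⊢
    have hc' : Pool.Agent.R384.Coc 1 c := ⟨hcont, fun σ τ => hc.mul σ trivial τ trivial⟩
    have hall : ∀ (p : ℕ) [Fact p.Prime] (ι : QBar →ₐ[ℚ] PadicAlgCl p),
        Pool.Agent.R384.CobOn 1 (Pool.Agent.R384.II ι) c := by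
      intro p _ ι
      by_cases hp : p = 2
      · subst hp
        have h2 : ‖ι w‖ < 1 ∨ ‖ι (1 - w)‖ < 1 := by
          by_contra hcon
          push Not at hcon
          have h3 : ι w * ι (1 - w) = 2 := by
            rw [← map_mul, show w * (1 - w) = 2 by linear_combination -hw, map_ofNat]
          have h4 := congrArg (fun x : PadicAlgCl 2 => ‖x‖) h3
          rw [norm_mul, Pool.Agent.Y715.Gi.norm_two'] at h4
          nlinarith [hcon.1, hcon.2]
        rcases h2 with h2 | h2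
        · have h3 := hs.one ι h2 le_rfl
          rw [e, if_pos ⟨rfl, rfl⟩] at h3
          obtain ⟨y, hy⟩ := h3
          exact ⟨y, fun σ hσ => hy σ hσ trivial⟩
        · have h3 := hs.two ι h2 le_rfl
          rw [e, if_pos ⟨rfl, rfl⟩] at h3
          obtain ⟨y, hy⟩ := h3
          exact ⟨y, fun σ hσ => hy σ hσ trivial⟩
      · have h3 := hs.odd p ι hp
        rw [e] at h3
        obtain ⟨y, hy⟩ := h3
        exact ⟨y, fun σ hσ => hy σ hσ trivial⟩
    refine ⟨0, fun σ _ _ => ?_⟩
    rw [mul_zero]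
    exact Pool.Agent.R384.vanish_one hw hc' hall σ
  · have hc' : Pool.Agent.R384.Coc (κ ^ a * κ' ^ b) c :=
      ⟨hcont, fun σ τ => hc.mul σ trivial τ trivial⟩
    have hodd : ∀ (p : ℕ) [Fact p.Prime] (ι : QBar →ₐ[ℚ] PadicAlgCl p), p ≠ 2 →
        Pool.Agent.R384.CobOn (κ ^ a * κ' ^ b) (Pool.Agent.R384.II ι) c := by
      intro p _ ι hp
      obtain ⟨y, hy⟩ := hs.odd p ι hp
      exact ⟨y, fun σ hσ => hy σ hσ trivial⟩
    rcases hle with hle | hle
    · obtain ⟨y, hy⟩ := Pool.Agent.R384.vanish_unr hw (kd.contAB hw a b) (kd.unrAB hw hab)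
        (Or.inl ⟨rfl, rfl⟩) hc' hodd (fun ι hι => by
          rw [hom] at hι
          have h3 := hs.one ι hι hle
          rw [if_neg h0] at h3
          obtain ⟨y, hy⟩ := h3
          exact ⟨y, fun σ hσ => hy σ hσ trivial⟩)
      exact ⟨y, fun σ _ _ => hy σ⟩
    · obtain ⟨y, hy⟩ := Pool.Agent.R384.vanish_unr hw (kd.contAB hw a b) (kd.unrAB hw hab)
        (Or.inr ⟨rfl, rfl⟩) hc' hodd (fun ι hι => by
          rw [hom'] at hι
          have h3 := hs.two ι hι hle
          rw [if_neg h0] at h3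
          obtain ⟨y, hy⟩ := h3
          exact ⟨y, fun σ hσ => hy σ hσ trivial⟩)
      exact ⟨y, fun σ _ _ => hy σ⟩

end proof

/-- **The semistable classes of the powers of most CM curves over `ℚ(√-7)`, in all degrees and all twists.** -/
theorem result :
    (∀ (n : ℕ) (M : OK) (d : Fin n → OK), Pair Good M d →
      OddDegrees (fun a b => (Even a ∧ a ≤ 0) ∨ (Even b ∧ b ≤ 0)) M d) ∧
    (∀ (n : ℕ) (M : OK) (d : Fin n → OK), Pair VeryGood M d →
      OddDegrees (fun a b => a ≤ 0 ∨ b ≤ 0) M d) ∧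
    (∀ M : OK, M ≠ 0 → EvenDegrees M) ∧
    (∀ (n : ℕ) (M : OK) (d : Fin n → OK), InClass M d →
      Law Good M d (c ^ 2 ^ n) ∧ Law VeryGood M d ((c / 2) ^ 2 ^ n)) ∧
    0.2887 < c ∧ c < 0.2889 :=
  ⟨fun _ _ _ h => odd_of (v := False) (fun a b h => h.elim Or.inl fun h => Or.inr (Or.inl h))
      fun T => by
      obtain ⟨D, z, hz, hA, hg, he⟩ := h.2 T
      exact ⟨D, z, hz, hA, gk_of hA hg, he⟩,
    fun _ _ _ h => odd_of (v := True) (fun a b h => Or.inr (Or.inr ⟨trivial, h⟩)) fun T => by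
      obtain ⟨D, z, hz, hA, hg, he⟩ := h.2 T
      exact ⟨D, z, hz, hA, gk_of' hA hg, he⟩,
    fun M hM => even_of hM, fun _ _ _ h =>
    ⟨⟨Pool.Agent.H519.KW.Dn.dens_one h, fun hP =>
      Pool.Agent.H519.KW.Dn.dens_ext h _ hP (Pool.Agent.H519.KW.Dn.dens_one h)⟩,
    ⟨Pool.Agent.H519.KW.Dn.dens_two h, fun hP =>
      Pool.Agent.H519.KW.Dn.dens_ext h _ hP (Pool.Agent.H519.KW.Dn.dens_two h)⟩⟩,
    Pool.Agent.N916.GB.eta_bounds.1, Pool.Agent.N916.GB.eta_bounds.2⟩

end Pool.Agent.Results.MP_76188c_nt.MostTwistsAllDegrees
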