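import Pool.Agent.H367.OT.GFam
import Pool.Agent.H367.OS.Fld

/-!
# The `ℓ`-adic regulators and one sequence of cubics over the integers

A relation `r` of size `m` is one of the equations `x_i x_j = x_l`, `x_i + x_j = x_l`, `x_i = 1` with
`i, j, l < m`; the relations are numbered, the number of `r` is `ν(r)` (`relNum`), and `R_m` is the
number of all relations (`numRel m`). Let `G_m` be the following polynomial with integral coefficients
(`univG ℤ m`). There are variables `x_i` and `z_ij` for `i, j < m`, a variable `c_r` for every relation
`r`, and variables `y_{r,l}` for all relations `r` and `l < (m + 1)^2 2 ^ ν(r)`. The equations (`eqnG`)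
are

  `z_ij - x_i x_j`,  `c_r ^ 2 - c_r`,  `c_r ρ_r`,  `(1 - c_r) y_{r,l}`,

where `ρ_r` is the linear polynomial `z_ij - x_l`, `x_i + x_j - x_l` or `x_i - 1` of the relation.
`G_m` is the sum of the equations multiplied by further variables `t_e`, one for each equation. It has
degree three. Let `C_m` be the affine cubic hypersurface `G_m = 1` (`cubG R m` over the ring `R`); it is
smooth over the integers.

Let `ℓ` be a prime number and `n ∈ ℤ`. For a smooth projective scheme `Y` over `ℚ` and `q ∈ ℤ` let
`A_n^q(Y) = H_M^{2q-n}(Y, ℚ(q))_hom ⊗ ℚ_ℓ` and `B_n^q(Y) = H^1_st(G_ℚ, H^{2q-n-1}(Y_ℚ̄, ℚ_ℓ(q)))`,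
with the regulator `r_ℓ : A_n^q(Y) → B_n^q(Y)`. For fixed `n` they are additive functors of the Chow
motive of `Y`. The group `A_n^q(Y)` is zero for `q < 0` and for `q > dim Y + n`, and `B_n^q(Y)` is
zero unless `0 ≤ 2q - n - 1 ≤ 2 dim Y`; so both are zero for `q < -c` and `q > dim Y + c`, where `c =
|n| + 1`.

For a separated scheme `X` of finite type over `ℚ` let `W(X)` be the weight complex (Gillet, Soulé; a
complex of Chow motives over `ℚ` with rational coefficients, for the cohomology with compact supports;
`W(X) = h(X)` for smooth projective `X`), and put `A_n^{q,s}(X) = H^s(A_n^q(W(X)))` and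
`B_n^{q,s}(X) = H^s(B_n^q(W(X)))`. `BijAt (C n) Prod.fst q X` says that the maps
`A_n^{q,s}(X) → B_n^{q,s}(X)` are isomorphisms for this `n`, `q` and all `s`.

For a number field `K`, a smooth projective scheme `X` over `K` and integers `i`, `j` let `Reg i j K
X` be the statement of question Q1 (`r_ℓ` is injective with the image `H^1_st`). If `X` is regarded as
a scheme over `ℚ`, neither the motivic cohomology nor the Galois cohomology changes (Shapiro's lemma),
and semistable classes correspond to each other. This is the hypothesis `describes`, with `n = 2j -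
i`.

**Theorem.** Let `E_m` be the number of the equations, and for `N ∈ ℕ` let
`idx m q N = q + (m + 1)^2 N + E_m - 1`.

(1) Question Q1 has a positive answer for `ℓ` (for all number fields, varieties, `i` and `j`) if and
only if, for infinitely many `m`, the maps `A_n^{idx m j N, s}(C_m) → B_n^{idx m j N, s}(C_m)`, `n =
2j - i`, are isomorphisms for all `s`, all `N < 2 ^ R_m` and all `i`, `j` such that `2 c ≤ m` and `-c
≤ j ≤ m`, where `c = |n| + 1`.

(2) For all `i` and `j ≥ -c` question Q1 has a positive answer for `i`, `j` and all number fields and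
varieties if and only if, for infinitely many `m`, the maps
`A_n^{idx m j N, s}(C_m) → B_n^{idx m j N, s}(C_m)` are isomorphisms for all `s` and `N < 2 ^ R_m`.

(3) For every `n` the hypersurfaces decide the statements (`Decides c`): for every affine scheme `Spec
B` of finite type over `ℚ` and all large `m` there is an `N` such that for `-c ≤ q ≤ m` the statement
with the index `q` for `Spec B` is equivalent to the one with the index `idx m q N` for `C_m`; and for
every separated scheme `X` of finite type and all large `m` the statements with the indices `idx m q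
N` for `C_m` imply the statement with the index `q` for `X`.

(4) `G_m` has integral coefficients and degree at most three, and `C_m` is smooth over all rings.

The hypotheses are standard: localisation sequences, affine bundles and products with `𝔾_m`
(`IsWeightPair`); the weight complex of a scheme of dimension at most `d` consists of direct factors
of motives of smooth projective varieties of dimension at most `d` (`GenAt`, `PBound`). Nothing is
assumed on the regulator for the point.

Idea of the proof. The projection of `C_m` to the affine space with the coordinates `x, z, c, y` is an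
affine bundle over the complement of the zero set `W_m` of the equations. The scheme `W_m` is the
disjoint union, over all sets `s` of relations (`c_r = 1` for `r ∈ s` and `c_r = 0` for the others), of
the products `X_s × 𝔸 ^ ((m + 1)^2 N(s))`, where `X_s` is the affine scheme defined by the relations in
`s` and `N(s) = ∑_{r ∈ s} 2 ^ ν(r)`. The numbers `N(s) < 2 ^ R_m` are different, and the dimension of `X_s`
is at most `m`. The invariants with the indices `q < -c` and `q > dim + c` are zero, and `m + 2 c` is less
than `(m + 1)^2`. So the invariant of `W_m` with the index `q + (m + 1)^2 N(s)`, `-c ≤ q ≤ m`, is the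
invariant of `X_s` with the index `q`; the other components do not contribute. Every affine scheme of
finite type over a prime field is an `X_s`, for all large `m`.

The universal system of relations is the one of helper854 (`Pool.Agent.H854.SQ`).
-/

set_option autoImplicit false

open CategoryTheory CategoryTheory.Limits AlgebraicGeometry Pool.Agent.Y116.UV Pool.Agent.Z125.UN
  Pool.Agent.Q193.LT Pool.Agent.Q49.WU Pool.Agent.H854.SQ Pool.Agent.H367.OT
open Pool.Agent.H367.OS (isPrimeField_rat FromQ AllNF)

universe w



namespace Pool.Agent.Results.MP_76188c_nt.OneSequenceOverTheIntegers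

/-- The bound for the indices. -/
abbrev bd (n : ℤ) : ℕ := n.natAbs + 1

/-- The groups `A_n^{q,s}`, `B_n^{q,s}` of the weight complexes: they describe the statements of question Q1
for the varieties over number fields (`describes`), and the known standard properties. -/
structure Describes {ℓ : ℕ} [Fact ℓ.Prime]
    (Reg : ℤ → ℤ → ∀ (K : Type) [Field K] [NumberField K], Sch K → Prop)
    (C : ℤ → PairData.{w} ℚ (ℤ × ℤ) ℚ_[ℓ]) : Prop where
  describes : ∀ i j : ℤ, FromQ (Reg i j) fun Y => BijAt (C (2 * j - i)) Prod.fst j Y
  weight : ∀ n, IsWeightPair (C n)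
  generated : ∀ n, GenAt (C n) Prod.fst
  bound : ∀ n, PBound (C n) Prod.fst (bd n)

/-- **The `ℓ`-adic regulators and one sequence of cubic hypersurfaces over the integers.** See the
explanations above. -/
theorem result {ℓ : ℕ} [Fact ℓ.Prime]
    {Reg : ℤ → ℤ → ∀ (K : Type) [Field K] [NumberField K], Sch K → Prop}
    {C : ℤ → PairData.{w} ℚ (ℤ × ℤ) ℚ_[ℓ]} (h : Describes Reg C) :
    ((∀ i j : ℤ, AllNF (Reg i j)) ↔
      ∃ᶠ m in Filter.atTop, ∀ i j : ℤ, 2 * bd (2 * j - i) ≤ m → -(bd (2 * j - i) : ℤ) ≤ j →
        j ≤ m → ∀ N : ℕ, N < 2 ^ numRel m →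
          BijAt (C (2 * j - i)) Prod.fst (idx m j N) (cubG ℚ m)) ∧
    (∀ i j : ℤ, -(bd (2 * j - i) : ℤ) ≤ j → (AllNF (Reg i j) ↔
      ∃ᶠ m in Filter.atTop, ∀ N : ℕ, N < 2 ^ numRel m →
        BijAt (C (2 * j - i)) Prod.fst (idx m j N) (cubG ℚ m))) ∧
    (∀ n, Decides (bd n) (BijAt (C n) Prod.fst)) ∧
    ∀ m : ℕ, (univG ℤ m).totalDegree ≤ 3 ∧
      ∀ (R : Type) [CommRing R], MvPolynomial.map (Int.castRingHom R) (univG ℤ m) = univG R m ∧
        Smooth (cubG R m).hom := by
  have hd : ∀ n, Decides (bd n) (BijAt (C n) Prod.fst) := fun n =>
    decides_pair isPrimeField_rat (h.generated n) (h.weight n) graded_weight (h.bound n)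
  refine ⟨?_, fun i j hj => (h.describes i j).all.trans (((hd _).index j hj).out 1 0), hd,
    cubG_facts⟩
  have h1 := family_iff isPrimeField_rat (ι := ℤ × ℤ) (c := fun x => bd (2 * x.2 - x.1))
    (P := fun x => BijAt (C (2 * x.2 - x.1)) Prod.fst)
    (fun x => bounded_pair (h.weight _) graded_weight (h.bound _))
    (fun x q g => h.generated _ q g) (fun x => x.2)
  constructor
  · intro g
    refine (h1.mp fun x Y hY => (h.describes x.1 x.2).all.mp (g x.1 x.2) Y hY).mono ?_
    intro m hm i j h2 h3 h4 N hN
    exact hm (i, j) h2 h3 h4 N hN
  · intro g i j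
    refine (h.describes i j).all.mpr fun Y hY => h1.mpr (g.mono ?_) (i, j) Y hY
    intro m hm x h2 h3 h4 N hN
    exact hm x.1 x.2 h2 h3 h4 N hN

end Pool.Agent.Results.MP_76188c_nt.OneSequenceOverTheIntegers
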